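import Pool.Agent.Helper14.LK.St
import Pool.Agent.Helper14.LK.Basic

/-!
# Project LK: module YNG
-/

set_option autoImplicit false

namespace Pool.Agent.Helper6.LK

open Pool.Agent.Helper14.LK
open scoped ContDiff Topology
open MeasureTheory Set Filter

private theorem nm_add_sq {n : ℕ} (a b : WW n) : nm (a + b) ^ 2 = nm a ^ 2 + 2 * ip a b + nm b ^ 2 := by
  rw [nm_sq, nm_sq, nm_sq, Prod.fst_add, Prod.snd_add, norm_add_sq_real, norm_add_sq_real]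
  unfold ip
  ring

private theorem nm_sub_sq {n : ℕ} (a b : WW n) : nm (a - b) ^ 2 = nm a ^ 2 - 2 * ip a b + nm b ^ 2 := by
  rw [nm_sq, nm_sq, nm_sq, Prod.fst_sub, Prod.snd_sub, norm_sub_sq_real, norm_sub_sq_real]
  unfold ip
  ring

/-- the defect of a segment -/
private noncomputable def dl {n : ℕ} (ι : EE n → WW n) (h : EE n → ℝ) (p q : EE n) : ℝ :=
  h q - h p - 1 / 2 * om (ι p) (ι q)

private theorem dl_add {n : ℕ} (ι : EE n → WW n) (h : EE n → ℝ) (p m q : EE n) :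
    dl ι h p q = dl ι h p m + dl ι h m q + 1 / 2 * om (ι m - ι p) (ι q - ι m) := by
  unfold dl
  rw [om_sub_left, om_sub_right, om_sub_right, om_self]
  ring

/-- admissible constants -/
private def Adm {n : ℕ} (ε : ℝ) (ι : EE n → WW n) (p q : EE n) (ρ : ℝ) : Prop :=
  ∀ a b : EE n, ‖a - (1 / 2 : ℝ) • (p + q)‖ ≤ ‖q - p‖ / 2 →
    ‖b - (1 / 2 : ℝ) • (p + q)‖ ≤ ‖q - p‖ / 2 →
    |nm (ι a - ι b) - ρ * ‖a - b‖| ≤ ε * ρ * (‖q - p‖ / 2)

private theorem mid_left {n : ℕ} (p q : EE n) : ‖(1 / 2 : ℝ) • (p + q) - p‖ = ‖q - p‖ / 2 := by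
  rw [show (1 / 2 : ℝ) • (p + q) - p = (1 / 2 : ℝ) • (q - p) by
    rw [smul_add, smul_sub]
    have : p = (1 / 2 : ℝ) • p + (1 / 2 : ℝ) • p := by rw [← add_smul]; norm_num
    nth_rewrite 2 [this]
    abel, norm_smul]
  norm_num
  ring

private theorem mid_right {n : ℕ} (p q : EE n) : ‖q - (1 / 2 : ℝ) • (p + q)‖ = ‖q - p‖ / 2 := by
  rw [show q - (1 / 2 : ℝ) • (p + q) = (1 / 2 : ℝ) • (q - p) by
    rw [smul_add, smul_sub]
    have : q = (1 / 2 : ℝ) • q + (1 / 2 : ℝ) • q := by rw [← add_smul]; norm_num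
    nth_rewrite 1 [this]
    abel, norm_smul]
  norm_num
  ring

private theorem adm_vals {n : ℕ} {ε : ℝ} {ι : EE n → WW n} {p q : EE n} {ρ : ℝ} (h : Adm ε ι p q ρ) :
    |nm (ι ((1 / 2 : ℝ) • (p + q)) - ι p) - ρ * (‖q - p‖ / 2)| ≤ ε * ρ * (‖q - p‖ / 2) ∧
    |nm (ι q - ι ((1 / 2 : ℝ) • (p + q))) - ρ * (‖q - p‖ / 2)| ≤ ε * ρ * (‖q - p‖ / 2) ∧
    |nm (ι q - ι p) - ρ * ‖q - p‖| ≤ ε * ρ * (‖q - p‖ / 2) := by
  set m := (1 / 2 : ℝ) • (p + q) with hm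
  have h0 : 0 ≤ ‖q - p‖ / 2 := by positivity
  have hmm : ‖m - m‖ ≤ ‖q - p‖ / 2 := by rw [sub_self, norm_zero]; exact h0
  have hpm : ‖p - m‖ ≤ ‖q - p‖ / 2 := by rw [norm_sub_rev, hm, mid_left]
  have hqm : ‖q - m‖ ≤ ‖q - p‖ / 2 := by rw [hm, mid_right]
  have h1 := h m p hmm hpm
  have h2 := h q m hqm hmm
  have h3 := h q p hqm hpm
  rw [hm, mid_left, ← hm] at h1
  rw [hm, mid_right, ← hm] at h2
  exact ⟨h1, h2, h3⟩

private theorem om_bound {n : ℕ} {ε r : ℝ} (hε : 0 < ε) (hε1 : ε ≤ 1 / 100) (hr : 0 < r) (u v : WW n)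
    (h1 : |nm u - r / 2| ≤ ε * r / 2) (h2 : |nm v - r / 2| ≤ ε * r / 2)
    (h3 : |nm (u + v) - r| ≤ ε * r / 2) : |om u v| ≤ 2 * (Real.sqrt ε * r ^ 2) := by
  have hX : nm u ≤ (1 + ε) * r / 2 := by
    have := (abs_le.1 h1).2
    linarith
  have hY : nm v ≤ (1 + ε) * r / 2 := by
    have := (abs_le.1 h2).2
    linarith
  have hZ : (1 - ε / 2) * r ≤ nm (u + v) := by
    have := (abs_le.1 h3).1
    linarith
  have hX2 : nm u ^ 2 ≤ ((1 + ε) * r / 2) ^ 2 := pow_le_pow_left₀ (nm_nonneg u) hX 2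
  have hY2 : nm v ^ 2 ≤ ((1 + ε) * r / 2) ^ 2 := pow_le_pow_left₀ (nm_nonneg v) hY 2
  have hZ2 : ((1 - ε / 2) * r) ^ 2 ≤ nm (u + v) ^ 2 :=
    pow_le_pow_left₀ (mul_nonneg (by linarith) hr.le) hZ 2
  have hW : nm (v - u) ^ 2 ≤ 4 * ε * r ^ 2 := by
    have e1 : nm (v - u) ^ 2 = 2 * nm u ^ 2 + 2 * nm v ^ 2 - nm (u + v) ^ 2 := by
      rw [nm_sub_sq, nm_add_sq, ip_comm v u]
      ring
    have e2 : 4 * ((1 + ε) * r / 2) ^ 2 - ((1 - ε / 2) * r) ^ 2 = (3 * ε + 3 / 4 * ε ^ 2) * r ^ 2 := by ring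
    have e3 : (3 * ε + 3 / 4 * ε ^ 2) * r ^ 2 ≤ 4 * ε * r ^ 2 := by
      apply mul_le_mul_of_nonneg_right _ (by positivity)
      nlinarith
    linarith
  have hs : Real.sqrt ε ^ 2 = ε := Real.sq_sqrt hε.le
  have hs0 : 0 ≤ Real.sqrt ε := Real.sqrt_nonneg _
  have hW' : nm (v - u) ≤ 2 * Real.sqrt ε * r := by
    apply le_of_sq_le_sq _ (by positivity)
    calc nm (v - u) ^ 2 ≤ 4 * ε * r ^ 2 := hW
      _ = (2 * Real.sqrt ε * r) ^ 2 := by rw [mul_pow, mul_pow, hs]; ring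
  have h4 : om u v = om u (v - u) := by rw [om_sub_right, om_self, sub_zero]
  rw [h4]
  refine (abs_om_le u (v - u)).trans ?_
  calc nm u * nm (v - u) ≤ ((1 + ε) * r / 2) * (2 * Real.sqrt ε * r) :=
        mul_le_mul hX hW' (nm_nonneg _) (by positivity)
    _ = (1 + ε) * (Real.sqrt ε * r ^ 2) := by ring
    _ ≤ 2 * (Real.sqrt ε * r ^ 2) := by
        apply mul_le_mul_of_nonneg_right _ (by positivity)
        linarith

/-- the first bound, on a convex set with bounded derivative -/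
private theorem dl_base {n : ℕ} {ι : EE n → WW n} {h : EE n → ℝ} (hι : ContDiff ℝ ∞ ι) (hh : ContDiff ℝ ∞ h)
    (hd : ∀ x u, fderiv ℝ h x u = 1 / 2 * om (ι x) (fderiv ℝ ι x u)) {D : Set (EE n)} (hD : Convex ℝ D)
    {Λ : ℝ} (hΛ0 : 0 ≤ Λ) (hΛ : ∀ x ∈ D, ‖fderiv ℝ ι x‖ ≤ Λ) (p q : EE n) (hp : p ∈ D) (hq : q ∈ D) :
    |dl ι h p q| ≤ 2 * Λ ^ 2 * ‖q - p‖ ^ 2 := by
  have hιd : Differentiable ℝ ι := hι.differentiable (by simp)
  have hhd : Differentiable ℝ h := hh.differentiable (by simp)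
  have hLip : ∀ y ∈ D, ‖ι y - ι p‖ ≤ Λ * ‖y - p‖ := fun y hy =>
    hD.norm_image_sub_le_of_norm_fderiv_le (𝕜 := ℝ) (fun x _ => hιd x) hΛ hp hy
  set F : EE n → ℝ := fun y => h y - h p - 1 / 2 * om (ι p) (ι y) with hF
  have hFd : ∀ y, HasFDerivAt F (fderiv ℝ h y - (1 / 2 : ℝ) • ((omL n (ι p)).comp (fderiv ℝ ι y))) y := by
    intro y
    have h1 : HasFDerivAt (fun y => omL n (ι p) (ι y)) ((omL n (ι p)).comp (fderiv ℝ ι y)) y :=
      (omL n (ι p)).hasFDerivAt.comp y (hιd y).hasFDerivAt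
    have h2 := ((hhd y).hasFDerivAt.sub_const (h p)).sub (h1.const_smul (1 / 2 : ℝ))
    have e : F = ((fun x => h x - h p) - (1 / 2 : ℝ) • fun y => omL n (ι p) (ι y)) := by
      funext z
      simp only [hF, Pi.sub_apply, Pi.smul_apply, omL_apply, smul_eq_mul]
    rw [e]
    exact h2
  have hsub : segment ℝ p q ⊆ D := hD.segment_subset hp hq
  have hbd : ∀ y ∈ segment ℝ p q, ‖fderiv ℝ F y‖ ≤ 2 * Λ ^ 2 * ‖q - p‖ := by
    intro y hy
    rw [(hFd y).fderiv]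
    apply ContinuousLinearMap.opNorm_le_bound _ (by positivity)
    intro u
    have h1 : (fderiv ℝ h y - (1 / 2 : ℝ) • ((omL n (ι p)).comp (fderiv ℝ ι y))) u =
        1 / 2 * om (ι y - ι p) (fderiv ℝ ι y u) := by
      rw [om_sub_left]
      simp only [sub_apply, smul_apply, ContinuousLinearMap.comp_apply,
        omL_apply, smul_eq_mul, hd]
      ring
    rw [h1, Real.norm_eq_abs, abs_mul, abs_of_pos (by norm_num : (0 : ℝ) < 1 / 2)]
    have h2 := abs_om_le_norm (ι y - ι p) (fderiv ℝ ι y u)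
    have h3 : ‖ι y - ι p‖ ≤ Λ * ‖q - p‖ := by
      refine (hLip y (hsub hy)).trans (mul_le_mul_of_nonneg_left ?_ hΛ0)
      obtain ⟨a, b, ha, hb, hab, rfl⟩ := hy
      have h4 : a • p + b • q - p = b • (q - p) := by
        have : a = 1 - b := by linarith
        rw [this, sub_smul, one_smul, smul_sub]
        abel
      rw [h4, norm_smul, Real.norm_eq_abs, abs_of_nonneg hb]
      have hb1 : b ≤ 1 := by linarith
      calc b * ‖q - p‖ ≤ 1 * ‖q - p‖ := mul_le_mul_of_nonneg_right hb1 (norm_nonneg _)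
        _ = ‖q - p‖ := one_mul _
    have h5 : ‖fderiv ℝ ι y u‖ ≤ Λ * ‖u‖ :=
      (ContinuousLinearMap.le_opNorm _ _).trans (mul_le_mul_of_nonneg_right (hΛ y (hsub hy)) (norm_nonneg _))
    calc 1 / 2 * |om (ι y - ι p) (fderiv ℝ ι y u)| ≤ 1 / 2 * (4 * ‖ι y - ι p‖ * ‖fderiv ℝ ι y u‖) := by linarith
      _ ≤ 1 / 2 * (4 * (Λ * ‖q - p‖) * (Λ * ‖u‖)) := by
          apply mul_le_mul_of_nonneg_left _ (by norm_num)
          apply mul_le_mul _ h5 (norm_nonneg _) (by positivity)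
          linarith
      _ = 2 * Λ ^ 2 * ‖q - p‖ * ‖u‖ := by ring
  have hfin := (convex_segment p q).norm_image_sub_le_of_norm_fderiv_le (𝕜 := ℝ) (f := F)
    (fun x _ => (hFd x).differentiableAt) hbd (left_mem_segment ℝ p q) (right_mem_segment ℝ p q)
  have hFp : F p = 0 := by
    simp only [hF, om_self]
    ring
  rw [hFp, sub_zero, Real.norm_eq_abs] at hfin
  calc |dl ι h p q| = |F q| := rfl
    _ ≤ 2 * Λ ^ 2 * ‖q - p‖ * ‖q - p‖ := hfin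
    _ = 2 * Λ ^ 2 * ‖q - p‖ ^ 2 := by ring

private theorem rho_bound {ε ρ ρ' l X : ℝ} (hε : 0 < ε) (hε1 : ε ≤ 1 / 100) (hρ : 0 < ρ) (hρ' : 0 < ρ') (hl : 0 < l)
    (h1 : |X - ρ * (l / 2)| ≤ ε * ρ * (l / 2)) (h2 : |X - ρ' * (l / 2)| ≤ ε * ρ' * (l / 2 / 2)) :
    ρ' ≤ 11 / 10 * ρ := by
  have h3 := (abs_le.1 h1).2
  have h4 := (abs_le.1 h2).1
  have h5 : ρ' * (l / 2) * (1 - ε / 2) ≤ ρ * (l / 2) * (1 + ε) := by nlinarith
  have h6 : ρ' * (1 - ε / 2) * (l / 2) ≤ ρ * (1 + ε) * (l / 2) := by linarith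
  have h7 : ρ' * (1 - ε / 2) ≤ ρ * (1 + ε) := le_of_mul_le_mul_right h6 (by linarith)
  have h8 : ρ' * (199 / 200) ≤ ρ' * (1 - ε / 2) := mul_le_mul_of_nonneg_left (by linarith) hρ'.le
  have h9 : ρ * (1 + ε) ≤ ρ * (101 / 100) := mul_le_mul_of_nonneg_left (by linarith) hρ.le
  linarith

theorem hYNG : StYNG := by
  intro n
  refine ⟨4, 1 / 100, by norm_num, by norm_num, ?_⟩
  intro ε ι h hε hε1 hι hh hd hN p q ρ hpq hρ hadm
  -- a ball with bounded derivative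
  set D : Set (EE n) := Metric.closedBall p ‖q - p‖ with hD
  have hDc : Convex ℝ D := convex_closedBall _ _
  have hcont : Continuous (fun x => ‖fderiv ℝ ι x‖) := (hι.continuous_fderiv (by simp)).norm
  obtain ⟨Λ0, hΛ0⟩ := (isCompact_closedBall p ‖q - p‖).bddAbove_image hcont.continuousOn
  set Λ : ℝ := max Λ0 0 with hΛdef
  have hΛ : ∀ x ∈ D, ‖fderiv ℝ ι x‖ ≤ Λ := fun x hx =>
    (hΛ0 ⟨x, hx, rfl⟩).trans (le_max_left _ _)
  have hΛn : 0 ≤ Λ := le_max_right _ _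
  have hs0 : 0 ≤ Real.sqrt ε := Real.sqrt_nonneg _
  have key : ∀ (k : ℕ) (p q : EE n) (ρ : ℝ), p ∈ D → q ∈ D → p ≠ q → 0 < ρ → Adm ε ι p q ρ →
      |dl ι h p q| ≤ 2 * Λ ^ 2 * ‖q - p‖ ^ 2 * (1 / 2) ^ k + 4 * (Real.sqrt ε * ρ ^ 2 * ‖q - p‖ ^ 2) := by
    intro k
    induction k with
    | zero =>
      intro p q ρ hp hq _ _ _
      have h1 := dl_base hι hh hd hDc hΛn hΛ p q hp hq
      have h2 : 0 ≤ 4 * (Real.sqrt ε * ρ ^ 2 * ‖q - p‖ ^ 2) := by positivity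
      rw [pow_zero, mul_one]
      linarith
    | succ k ih =>
      intro p q ρ hp hq hne hρ hadm
      set m := (1 / 2 : ℝ) • (p + q) with hm
      have hl : 0 < ‖q - p‖ := norm_pos_iff.2 (sub_ne_zero.2 (Ne.symm hne))
      have hmp : ‖m - p‖ = ‖q - p‖ / 2 := mid_left p q
      have hqm : ‖q - m‖ = ‖q - p‖ / 2 := mid_right p q
      have hmD : m ∈ D := by
        have h1 := hDc hp hq (by norm_num : (0 : ℝ) ≤ 1 / 2) (by norm_num : (0 : ℝ) ≤ 1 / 2) (by norm_num)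
        rw [hm, smul_add]
        exact h1
      have hpm : p ≠ m := by
        intro he
        rw [← he, sub_self, norm_zero] at hmp
        linarith
      have hmq : m ≠ q := by
        intro he
        rw [← he, sub_self, norm_zero] at hqm
        rw [he] at hmp
        linarith
      obtain ⟨v1, v2, v3⟩ := adm_vals hadm
      rw [← hm] at v1 v2
      -- the constants of the halves
      obtain ⟨ρ1, hρ1, ha1⟩ := hN ((1 / 2 : ℝ) • (p + m)) (‖m - p‖ / 2) (by rw [hmp]; positivity)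
      obtain ⟨ρ2, hρ2, ha2⟩ := hN ((1 / 2 : ℝ) • (m + q)) (‖q - m‖ / 2) (by rw [hqm]; positivity)
      have hA1 : Adm ε ι p m ρ1 := ha1
      have hA2 : Adm ε ι m q ρ2 := ha2
      have w1 := (adm_vals hA1).2.2
      have w2 := (adm_vals hA2).2.2
      rw [hmp] at w1
      rw [hqm] at w2
      have hb1 : ρ1 ≤ 11 / 10 * ρ := rho_bound hε hε1 hρ hρ1 hl v1 w1
      have hb2 : ρ2 ≤ 11 / 10 * ρ := rho_bound hε hε1 hρ hρ2 hl v2 w2
      have i1 := ih p m ρ1 hp hmD hpm hρ1 hA1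
      have i2 := ih m q ρ2 hmD hq hmq hρ2 hA2
      rw [hmp] at i1
      rw [hqm] at i2
      have hom : |om (ι m - ι p) (ι q - ι m)| ≤ 2 * (Real.sqrt ε * (ρ * ‖q - p‖) ^ 2) := by
        apply om_bound hε hε1 (mul_pos hρ hl)
        · calc |nm (ι m - ι p) - ρ * ‖q - p‖ / 2| = |nm (ι m - ι p) - ρ * (‖q - p‖ / 2)| := by ring_nf
            _ ≤ ε * ρ * (‖q - p‖ / 2) := v1
            _ = ε * (ρ * ‖q - p‖) / 2 := by ring
        · calc |nm (ι q - ι m) - ρ * ‖q - p‖ / 2| = |nm (ι q - ι m) - ρ * (‖q - p‖ / 2)| := by ring_nf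
            _ ≤ ε * ρ * (‖q - p‖ / 2) := v2
            _ = ε * (ρ * ‖q - p‖) / 2 := by ring
        · rw [show ι m - ι p + (ι q - ι m) = ι q - ι p by abel]
          calc |nm (ι q - ι p) - ρ * ‖q - p‖| ≤ ε * ρ * (‖q - p‖ / 2) := v3
            _ = ε * (ρ * ‖q - p‖) / 2 := by ring
      have hq1 : ρ1 ^ 2 ≤ 121 / 100 * ρ ^ 2 := by
        calc ρ1 ^ 2 ≤ (11 / 10 * ρ) ^ 2 := pow_le_pow_left₀ hρ1.le hb1 2
          _ = 121 / 100 * ρ ^ 2 := by ring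
      have hq2 : ρ2 ^ 2 ≤ 121 / 100 * ρ ^ 2 := by
        calc ρ2 ^ 2 ≤ (11 / 10 * ρ) ^ 2 := pow_le_pow_left₀ hρ2.le hb2 2
          _ = 121 / 100 * ρ ^ 2 := by ring
      set s := Real.sqrt ε with hsdef
      set L := ‖q - p‖ with hL
      have j1 : s * ρ1 ^ 2 * (L / 2) ^ 2 ≤ s * (121 / 100 * ρ ^ 2) * (L / 2) ^ 2 := by
        apply mul_le_mul_of_nonneg_right _ (by positivity)
        exact mul_le_mul_of_nonneg_left hq1 hs0
      have j2 : s * ρ2 ^ 2 * (L / 2) ^ 2 ≤ s * (121 / 100 * ρ ^ 2) * (L / 2) ^ 2 := by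
        apply mul_le_mul_of_nonneg_right _ (by positivity)
        exact mul_le_mul_of_nonneg_left hq2 hs0
      have hpos : 0 ≤ s * ρ ^ 2 * L ^ 2 := by positivity
      have e1 : s * (121 / 100 * ρ ^ 2) * (L / 2) ^ 2 = 121 / 400 * (s * ρ ^ 2 * L ^ 2) := by ring
      have e2 : s * (ρ * L) ^ 2 = s * ρ ^ 2 * L ^ 2 := by ring
      have e3 : 2 * Λ ^ 2 * (L / 2) ^ 2 * (1 / 2) ^ k = 1 / 4 * (2 * Λ ^ 2 * L ^ 2 * (1 / 2) ^ k) := by ring
      have e4 : 2 * Λ ^ 2 * L ^ 2 * (1 / 2) ^ (k + 1) = 1 / 2 * (2 * Λ ^ 2 * L ^ 2 * (1 / 2) ^ k) := by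
        rw [pow_succ]
        ring
      rw [e1] at j1 j2
      rw [e2] at hom
      rw [e3] at i1 i2
      rw [e4]
      rw [dl_add ι h p m q]
      have t1 : |dl ι h p m + dl ι h m q + 1 / 2 * om (ι m - ι p) (ι q - ι m)| ≤
          |dl ι h p m| + |dl ι h m q| + 1 / 2 * |om (ι m - ι p) (ι q - ι m)| := by
        refine (abs_add_le _ _).trans (add_le_add (abs_add_le _ _) ?_)
        rw [abs_mul, abs_of_pos (by norm_num : (0 : ℝ) < 1 / 2)]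
      linarith
  have hpD : p ∈ D := Metric.mem_closedBall_self (norm_nonneg _)
  have hqD : q ∈ D := by
    rw [hD, Metric.mem_closedBall, dist_eq_norm]
  have hlim : Tendsto (fun k : ℕ => 2 * Λ ^ 2 * ‖q - p‖ ^ 2 * (1 / 2 : ℝ) ^ k +
      4 * (Real.sqrt ε * ρ ^ 2 * ‖q - p‖ ^ 2)) atTop
      (𝓝 (2 * Λ ^ 2 * ‖q - p‖ ^ 2 * 0 + 4 * (Real.sqrt ε * ρ ^ 2 * ‖q - p‖ ^ 2))) :=
    ((tendsto_pow_atTop_nhds_zero_of_lt_one (by norm_num) (by norm_num)).const_mul _).add_const _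
  have hfin := ge_of_tendsto' hlim (fun k => key k p q ρ hpD hqD hpq hρ hadm)
  calc |h q - h p - 1 / 2 * om (ι p) (ι q)| = |dl ι h p q| := rfl
    _ ≤ 2 * Λ ^ 2 * ‖q - p‖ ^ 2 * 0 + 4 * (Real.sqrt ε * ρ ^ 2 * ‖q - p‖ ^ 2) := hfin
    _ = 4 * Real.sqrt ε * ρ ^ 2 * ‖q - p‖ ^ 2 := by ring

end Pool.Agent.Helper6.LK
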